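import Pool.Agent.L7h74.HS.Stm

/-!
# Project HS, part BIS

States with the same affine relations force the same formulas.
-/

set_option autoImplicit false

namespace Pool.Agent.L7h3.HS

open CategoryTheory Opposite Pool.Agent.L7h74.HS

variable {Z W : SSet.{0}} {k n : ℕ}

/-- coboundaries -/
def Cb (u : Sx Z (k + 1) → ZMod 2) : Prop := ∃ β : Sx Z k → ZMod 2, u = dl β

theorem add_self_zero {α : Type} (u : α → ZMod 2) : u + u = 0 :=
  funext fun _ => CharTwo.add_self_eq_zero _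

theorem dl_add (β γ : Sx Z k → ZMod 2) : dl (β + γ) = dl β + dl γ := by
  funext z
  simp only [dl, Pi.add_apply, Finset.sum_add_distrib]

theorem dl_zero : dl (0 : Sx Z k → ZMod 2) = 0 := by
  funext z
  simp only [dl, Pi.zero_apply, Finset.sum_const_zero]

theorem dl_smul (c : ZMod 2) (β : Sx Z k → ZMod 2) : dl (c • β) = c • dl β := by
  funext z
  simp only [dl, Pi.smul_apply, smul_eq_mul, Finset.mul_sum]

theorem Cb.zero : Cb (0 : Sx Z (k + 1) → ZMod 2) := ⟨0, dl_zero.symm⟩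

theorem Cb.add {u v : Sx Z (k + 1) → ZMod 2} (hu : Cb u) (hv : Cb v) : Cb (u + v) := by
  obtain ⟨β, rfl⟩ := hu
  obtain ⟨γ, rfl⟩ := hv
  exact ⟨β + γ, (dl_add β γ).symm⟩

theorem Cb.smul (c : ZMod 2) {u : Sx Z (k + 1) → ZMod 2} (hu : Cb u) : Cb (c • u) := by
  obtain ⟨β, rfl⟩ := hu
  exact ⟨c • β, (dl_smul c β).symm⟩

theorem Cb.rs (f : W ⟶ Z) {u : Sx Z (k + 1) → ZMod 2} (hu : Cb u) : Cb (rs f u) := by
  obtain ⟨β, rfl⟩ := hu
  exact ⟨L7h74.HS.rs f β, (dl_rs f β).symm⟩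

theorem Cb.of_add {u v : Sx Z (k + 1) → ZMod 2} (huv : Cb (u + v)) (hu : Cb u) : Cb v := by
  have h := huv.add hu
  have h2 : u + v + u = v := by
    rw [add_comm u v, add_assoc, add_self_zero, add_zero]
  rwa [h2] at h

theorem NZ_zero : NZ (0 : Sx Z (k + 1) → ZMod 2) := ⟨dl_zero, fun _ _ => rfl⟩

theorem NZ_add {u v : Sx Z (k + 1) → ZMod 2} (hu : NZ u) (hv : NZ v) : NZ (u + v) := by
  refine ⟨?_, fun i s => ?_⟩
  · rw [dl_add, hu.1, hv.1, add_zero]
  · rw [Pi.add_apply, hu.2, hv.2, add_zero]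

theorem NZ_smul (c : ZMod 2) {u : Sx Z (k + 1) → ZMod 2} (hu : NZ u) : NZ (c • u) := by
  refine ⟨?_, fun i s => ?_⟩
  · rw [dl_smul, hu.1, smul_zero]
  · rw [Pi.smul_apply, hu.2, smul_zero]

/-- linear combinations -/
def lc (a : Fin n → (Sx Z (k + 1) → ZMod 2)) (c : Fin n → ZMod 2) : Sx Z (k + 1) → ZMod 2 :=
  ∑ i, c i • a i

theorem lc_add (a : Fin n → (Sx Z (k + 1) → ZMod 2)) (c d : Fin n → ZMod 2) :
    lc a (c + d) = lc a c + lc a d := by
  simp only [lc, Pi.add_apply, add_smul, Finset.sum_add_distrib]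

theorem lc_smul (a : Fin n → (Sx Z (k + 1) → ZMod 2)) (s : ZMod 2) (c : Fin n → ZMod 2) :
    lc a (s • c) = s • lc a c := by
  simp only [lc, Pi.smul_apply, smul_eq_mul, mul_smul, Finset.smul_sum]

theorem rs_add (f : W ⟶ Z) (u v : Sx Z k → ZMod 2) : rs f (u + v) = rs f u + rs f v := rfl

theorem rs_id (u : Sx Z k → ZMod 2) : rs (𝟙 Z) u = u := rfl

theorem rs_comp {V : SSet.{0}} (g : V ⟶ W) (f : W ⟶ Z) (u : Sx Z k → ZMod 2) :
    rs (g ≫ f) u = rs g (rs f u) := rfl

theorem lc_rs (f : W ⟶ Z) (a : Fin n → (Sx Z (k + 1) → ZMod 2)) (c : Fin n → ZMod 2) :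
    rs f (lc a c) = lc (fun i => rs f (a i)) c := by
  funext w
  simp only [rs, lc, Finset.sum_apply, Pi.smul_apply]

theorem NZ_lc {a : Fin n → (Sx Z (k + 1) → ZMod 2)} (ha : ∀ i, NZ (a i)) (c : Fin n → ZMod 2) :
    NZ (lc a c) := by
  have h : ∀ s : Finset (Fin n), NZ (∑ i ∈ s, c i • a i) := by
    intro s
    induction s using Finset.induction_on with
    | empty =>
      rw [Finset.sum_empty]
      exact NZ_zero
    | insert i s hi ih =>
      rw [Finset.sum_insert hi]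
      exact NZ_add (NZ_smul _ (ha i)) ih
  exact h Finset.univ

theorem lc_snoc (a : Fin n → (Sx Z (k + 1) → ZMod 2)) (b : Sx Z (k + 1) → ZMod 2)
    (c : Fin (n + 1) → ZMod 2) :
    lc (Fin.snoc (α := fun _ => Sx Z (k + 1) → ZMod 2) a b) c =
      lc a (fun i : Fin n => c i.castSucc) + c (Fin.last n) • b := by
  simp only [lc, Fin.sum_univ_castSucc, Fin.snoc_castSucc, Fin.snoc_last]

/-- the affine relations, as vectors -/
def RV (a : Fin n → (Sx Z (k + 1) → ZMod 2)) : Set (Fin n → ZMod 2) :=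
  {c | ∑ i, c i = 0 ∧ Cb (lc a c)}

theorem RV_add {a : Fin n → (Sx Z (k + 1) → ZMod 2)} {c d : Fin n → ZMod 2} (hc : c ∈ RV a)
    (hd : d ∈ RV a) : c + d ∈ RV a := by
  refine ⟨?_, ?_⟩
  · simp only [Pi.add_apply, Finset.sum_add_distrib, hc.1, hd.1, add_zero]
  · rw [lc_add]
    exact hc.2.add hd.2

theorem RV_rs (f : W ⟶ Z) (a : Fin n → (Sx Z (k + 1) → ZMod 2)) :
    RV a ⊆ RV (fun i => rs f (a i)) := by
  intro c hc
  refine ⟨hc.1, ?_⟩
  rw [← lc_rs]
  exact hc.2.rs f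

theorem zmod2 (x : ZMod 2) : x = 0 ∨ x = 1 := by
  revert x
  decide

/-- from the sets to the vectors -/
theorem mem_RV_iff (a : Fin n → (Sx Z (k + 1) → ZMod 2)) (c : Fin n → ZMod 2) :
    c ∈ RV a ↔ Finset.univ.filter (fun i => c i = 1) ∈ Rel a := by
  classical
  have h1 : ∑ i, c i = ((Finset.univ.filter (fun i => c i = 1)).card : ZMod 2) := by
    rw [Finset.card_filter, Nat.cast_sum]
    refine Finset.sum_congr rfl fun i _ => ?_
    rcases zmod2 (c i) with h | h
    · rw [h]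
      simp
    · rw [h]
      simp
  have h2 : lc a c = ∑ i ∈ Finset.univ.filter (fun i => c i = 1), a i := by
    rw [Finset.sum_filter]
    refine Finset.sum_congr rfl fun i _ => ?_
    rcases zmod2 (c i) with h | h
    · rw [h]
      simp
    · rw [h]
      simp
  constructor
  · intro h
    refine ⟨?_, ?_⟩
    · have := h.1
      rw [h1, ZMod.natCast_eq_zero_iff_even] at this
      exact this
    · obtain ⟨β, hβ⟩ := h.2
      exact ⟨β, by rw [← h2, hβ]⟩
  · intro h
    refine ⟨?_, ?_⟩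
    · rw [h1, ZMod.natCast_eq_zero_iff_even]
      exact h.1
    · obtain ⟨β, hβ⟩ := h.2
      exact ⟨β, by rw [h2, hβ]⟩

/-- monotonicity of forcing -/
theorem mono (k : ℕ) {n : ℕ} (φ : Form n) : ∀ (Z : SSet.{0}) (a : Fin n → (Sx Z (k + 1) → ZMod 2))
    (W : SSet.{0}) (f : W ⟶ Z), CForces k φ Z a → CForces k φ W (fun i => rs f (a i)) := by
  induction φ with
  | top => exact fun _ _ _ _ _ => trivial
  | bot => exact fun _ _ _ _ h => h
  | eq i j =>
    rintro Z a W f ⟨β, hβ⟩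
    refine ⟨rs f β, ?_⟩
    rw [dl_rs, ← hβ, rs_add]
  | and φ ψ ih1 ih2 => exact fun Z a W f h => ⟨ih1 Z a W f h.1, ih2 Z a W f h.2⟩
  | or φ ψ ih1 ih2 => exact fun Z a W f h => h.imp (ih1 Z a W f) (ih2 Z a W f)
  | imp φ ψ ih1 ih2 => exact fun Z a W f h V hV g hg => h V hV (g ≫ f) hg
  | all φ ih => exact fun Z a W f h V hV g b hb => h V hV (g ≫ f) b hb
  | ex φ ih =>
    rintro Z a W f ⟨b, hb, h⟩
    refine ⟨rs f b, hb.rs f, ?_⟩
    have h2 := ih Z _ W f h
    have h3 : (fun i => rs f (Fin.snoc (α := fun _ => Sx Z (k + 1) → ZMod 2) a b i)) =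
        Fin.snoc (α := fun _ => Sx W (k + 1) → ZMod 2) (fun i => rs f (a i)) (rs f b) := by
      funext i
      refine Fin.lastCases ?_ (fun i => ?_) i
      · rw [Fin.snoc_last, Fin.snoc_last]
      · rw [Fin.snoc_castSucc, Fin.snoc_castSucc]
    rw [h3] at h2
    exact h2

/-- realising a larger set of relations -/
theorem extend (hK : S_KIL) (hk : k ≤ 1) (R : Set (Fin n → ZMod 2))
    (hR : ∀ c ∈ R, ∀ d ∈ R, c + d ∈ R) (hR0 : ∀ c ∈ R, ∑ i, c i = 0) :
    ∀ (N : ℕ) (Z : SSet.{0}) (_ : Z.IsConnected) (a : Fin n → (Sx Z (k + 1) → ZMod 2)),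
      (∀ i, NZ (a i)) → RV a ⊆ R → (R \ RV a).ncard ≤ N →
        ∃ (W : SSet.{0}) (_ : W.IsConnected) (f : W ⟶ Z), RV (fun i => rs f (a i)) = R := by
  intro N
  induction N with
  | zero =>
    intro Z hZ a ha hsub hN
    have h0 : (R \ RV a).ncard = 0 := Nat.le_zero.1 hN
    rw [Set.ncard_eq_zero (Set.toFinite _), Set.diff_eq_empty] at h0
    exact ⟨Z, hZ, 𝟙 Z, subset_antisymm hsub h0⟩
  | succ N ih =>
    intro Z hZ a ha hsub hN
    by_cases hc : R ⊆ RV a
    · exact ⟨Z, hZ, 𝟙 Z, subset_antisymm hsub hc⟩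
    · obtain ⟨c, hcR, hca⟩ := Set.not_subset.1 hc
      obtain ⟨W, hW, f, hf1, hf2⟩ := hK k hk Z hZ (lc a c) (NZ_lc ha c)
      have hcW : c ∈ RV (fun i => rs f (a i)) := by
        refine ⟨hR0 c hcR, ?_⟩
        rw [← lc_rs]
        exact hf1
      have hsub2 : RV (fun i => rs f (a i)) ⊆ R := by
        intro d hd
        have hd2 := hd.2
        rw [← lc_rs] at hd2
        rcases hf2 (lc a d) (NZ_lc ha d) hd2 with h | h
        · exact hsub ⟨hd.1, h⟩
        · have h2 : d + c ∈ RV a := by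
            refine ⟨?_, ?_⟩
            · simp only [Pi.add_apply, Finset.sum_add_distrib, hd.1, hR0 c hcR, add_zero]
            · rw [lc_add]
              exact h
          have h3 := hR _ (hsub h2) _ hcR
          rwa [add_assoc, add_self_zero, add_zero] at h3
      have hcard : (R \ RV (fun i => rs f (a i))).ncard ≤ N := by
        have h4 : R \ RV (fun i => rs f (a i)) ⊂ R \ RV a := by
          refine ⟨fun d hd => ⟨hd.1, fun h => hd.2 (RV_rs f a h)⟩, fun h => ?_⟩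
          exact (h ⟨hcR, hca⟩).2 hcW
        have h5 := Set.ncard_lt_ncard h4 (Set.toFinite _)
        omega
      obtain ⟨V, hV, g, hg⟩ := ih W hW (fun i => rs f (a i)) (fun i => (ha i).rs f) hsub2 hcard
      exact ⟨V, hV, g ≫ f, hg⟩

variable {Z' : SSet.{0}} {k' : ℕ}

/-- the dependent case -/
theorem RV_dep {a : Fin n → (Sx Z (k + 1) → ZMod 2)} {a' : Fin n → (Sx Z' (k' + 1) → ZMod 2)}
    (h : RV a = RV a') {b : Sx Z (k + 1) → ZMod 2} {b' : Sx Z' (k' + 1) → ZMod 2}
    (t : Fin n → ZMod 2) (ht : ∑ i, t i = 1) (hb : Cb (lc a t + b)) (hb' : Cb (lc a' t + b')) :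
    RV (Fin.snoc (α := fun _ => Sx Z (k + 1) → ZMod 2) a b) =
      RV (Fin.snoc (α := fun _ => Sx Z' (k' + 1) → ZMod 2) a' b') := by
  have key : ∀ {Y : SSet.{0}} {l : ℕ} (d : Fin n → (Sx Y (l + 1) → ZMod 2))
      (e : Sx Y (l + 1) → ZMod 2), Cb (lc d t + e) → ∀ c : Fin (n + 1) → ZMod 2,
        c ∈ RV (Fin.snoc (α := fun _ => Sx Y (l + 1) → ZMod 2) d e) ↔
          (fun i : Fin n => c i.castSucc) + c (Fin.last n) • t ∈ RV d := by
    intro Y l d e hde c
    have e1 : ∑ i, ((fun i : Fin n => c i.castSucc) + c (Fin.last n) • t) i = ∑ i, c i := by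
      rw [Fin.sum_univ_castSucc]
      simp only [Pi.add_apply, Pi.smul_apply, smul_eq_mul, Finset.sum_add_distrib]
      rw [← Finset.mul_sum, ht, mul_one]
    have e2 : lc d ((fun i : Fin n => c i.castSucc) + c (Fin.last n) • t) +
        lc (Fin.snoc (α := fun _ => Sx Y (l + 1) → ZMod 2) d e) c =
          c (Fin.last n) • (lc d t + e) := by
      rw [lc_snoc, lc_add, lc_smul, smul_add]
      have := add_self_zero (lc d (fun i : Fin n => c i.castSucc))
      calc lc d (fun i : Fin n => c i.castSucc) + c (Fin.last n) • lc d t +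
            (lc d (fun i : Fin n => c i.castSucc) + c (Fin.last n) • e)
          = (lc d (fun i : Fin n => c i.castSucc) + lc d (fun i : Fin n => c i.castSucc)) +
            (c (Fin.last n) • lc d t + c (Fin.last n) • e) := by abel
        _ = _ := by rw [this, zero_add]
    have e3 : Cb (lc d ((fun i : Fin n => c i.castSucc) + c (Fin.last n) • t) +
        lc (Fin.snoc (α := fun _ => Sx Y (l + 1) → ZMod 2) d e) c) := by
      rw [e2]
      exact hde.smul _
    constructor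
    · intro hc
      refine ⟨by rw [e1]; exact hc.1, ?_⟩
      rw [add_comm] at e3
      exact e3.of_add hc.2
    · intro hc
      refine ⟨by rw [← e1]; exact hc.1, ?_⟩
      exact e3.of_add hc.2
  ext c
  rw [key a b hb, key a' b' hb', h]

/-- the independent case -/
theorem RV_ind {a : Fin n → (Sx Z (k + 1) → ZMod 2)} {a' : Fin n → (Sx Z' (k' + 1) → ZMod 2)}
    (h : RV a = RV a') {b : Sx Z (k + 1) → ZMod 2} {b' : Sx Z' (k' + 1) → ZMod 2}
    (hb : ∀ t : Fin n → ZMod 2, ∑ i, t i = 1 → ¬ Cb (lc a t + b))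
    (hb' : ∀ t : Fin n → ZMod 2, ∑ i, t i = 1 → ¬ Cb (lc a' t + b')) :
    RV (Fin.snoc (α := fun _ => Sx Z (k + 1) → ZMod 2) a b) =
      RV (Fin.snoc (α := fun _ => Sx Z' (k' + 1) → ZMod 2) a' b') := by
  have key : ∀ {Y : SSet.{0}} {l : ℕ} (d : Fin n → (Sx Y (l + 1) → ZMod 2))
      (e : Sx Y (l + 1) → ZMod 2), (∀ t : Fin n → ZMod 2, ∑ i, t i = 1 → ¬ Cb (lc d t + e)) →
      ∀ c : Fin (n + 1) → ZMod 2,
        c ∈ RV (Fin.snoc (α := fun _ => Sx Y (l + 1) → ZMod 2) d e) ↔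
          c (Fin.last n) = 0 ∧ (fun i : Fin n => c i.castSucc) ∈ RV d := by
    intro Y l d e hde c
    constructor
    · rintro ⟨h1, h2⟩
      rw [lc_snoc] at h2
      rw [Fin.sum_univ_castSucc] at h1
      rcases zmod2 (c (Fin.last n)) with h0 | h0
      · rw [h0, zero_smul, add_zero] at h2
        rw [h0, add_zero] at h1
        exact ⟨h0, h1, h2⟩
      · exfalso
        rw [h0, one_smul] at h2
        rw [h0] at h1
        refine hde _ ?_ h2
        have : ∑ i : Fin n, c i.castSucc = ∑ i : Fin n, c i.castSucc + 1 + 1 := by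
          rw [add_assoc, CharTwo.add_self_eq_zero, add_zero]
        rw [this, h1, zero_add]
    · rintro ⟨h0, h1, h2⟩
      refine ⟨?_, ?_⟩
      · rw [Fin.sum_univ_castSucc, h0, add_zero]
        exact h1
      · rw [lc_snoc, h0, zero_smul, add_zero]
        exact h2
  ext c
  rw [key a b hb, key a' b' hb', h]

theorem lc_single (a : Fin n → (Sx Z (k + 1) → ZMod 2)) (i : Fin n) :
    lc a (Pi.single i 1) = a i := by
  rw [lc, Finset.sum_eq_single i]
  · rw [Pi.single_eq_same, one_smul]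
  · intro j _ hj
    rw [Pi.single_eq_of_ne hj, zero_smul]
  · intro h
    exact absurd (Finset.mem_univ _) h

theorem sum_single (i : Fin n) : ∑ j, (Pi.single i 1 : Fin n → ZMod 2) j = 1 := by
  rw [Finset.sum_pi_single']
  simp

theorem NZ_snoc {a : Fin n → (Sx Z (k + 1) → ZMod 2)} {b : Sx Z (k + 1) → ZMod 2}
    (ha : ∀ i, NZ (a i)) (hb : NZ b) (i : Fin (n + 1)) :
    NZ (Fin.snoc (α := fun _ => Sx Z (k + 1) → ZMod 2) a b i) := by
  refine Fin.lastCases ?_ (fun i => ?_) i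
  · rw [Fin.snoc_last]
    exact hb
  · rw [Fin.snoc_castSucc]
    exact ha i

theorem rs_snoc (f : W ⟶ Z) (a : Fin n → (Sx Z (k + 1) → ZMod 2)) (b : Sx Z (k + 1) → ZMod 2) :
    (fun i => rs f (Fin.snoc (α := fun _ => Sx Z (k + 1) → ZMod 2) a b i)) =
      Fin.snoc (α := fun _ => Sx W (k + 1) → ZMod 2) (fun i => rs f (a i)) (rs f b) := by
  funext i
  refine Fin.lastCases ?_ (fun i => ?_) i
  · rw [Fin.snoc_last, Fin.snoc_last]
  · rw [Fin.snoc_castSucc, Fin.snoc_castSucc]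

/-- the bisimulation -/
theorem bisV (hK : S_KIL) (hI : S_IND) {n : ℕ} (φ : Form n) : ∀ (k k' : ℕ), k ≤ 1 → k' ≤ 1 →
    ∀ (Z : SSet.{0}) (_ : Z.IsConnected) (a : Fin n → (Sx Z (k + 1) → ZMod 2))
      (_ : ∀ i, NZ (a i)) (Z' : SSet.{0}) (_ : Z'.IsConnected)
      (a' : Fin n → (Sx Z' (k' + 1) → ZMod 2)) (_ : ∀ i, NZ (a' i)),
      RV a = RV a' → CForces k φ Z a → CForces k' φ Z' a' := by
  induction φ with
  | top => exact fun _ _ _ _ _ _ _ _ _ _ _ _ _ _ => trivial
  | bot => exact fun _ _ _ _ _ _ _ _ _ _ _ _ _ h => h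
  | eq i j =>
    intro k k' _ _ Z _ a _ Z' _ a' _ hR h
    have h1 : Pi.single i 1 + Pi.single j 1 ∈ RV a := by
      refine ⟨?_, ?_⟩
      · simp only [Pi.add_apply, Finset.sum_add_distrib, sum_single]
        decide
      · rw [lc_add, lc_single, lc_single]
        exact h
    rw [hR] at h1
    have h2 := h1.2
    rw [lc_add, lc_single, lc_single] at h2
    exact h2
  | and φ ψ ih1 ih2 =>
    intro k k' hk hk' Z hZ a ha Z' hZ' a' ha' hR h
    exact ⟨ih1 k k' hk hk' Z hZ a ha Z' hZ' a' ha' hR h.1,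
      ih2 k k' hk hk' Z hZ a ha Z' hZ' a' ha' hR h.2⟩
  | or φ ψ ih1 ih2 =>
    intro k k' hk hk' Z hZ a ha Z' hZ' a' ha' hR h
    exact h.imp (ih1 k k' hk hk' Z hZ a ha Z' hZ' a' ha' hR)
      (ih2 k k' hk hk' Z hZ a ha Z' hZ' a' ha' hR)
  | imp φ ψ ih1 ih2 =>
    intro k k' hk hk' Z hZ a ha Z' hZ' a' ha' hR h W' hW' f' hφ
    obtain ⟨W, hW, f, hf⟩ := extend hK hk (RV (fun i => rs f' (a' i)))
      (fun c hc d hd => RV_add hc hd) (fun c hc => hc.1) _ Z hZ a ha
      (by rw [hR]; exact RV_rs f' a') le_rfl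
    have h1 := ih1 k' k hk' hk W' hW' (fun i => rs f' (a' i)) (fun i => (ha' i).rs f') W hW
      (fun i => rs f (a i)) (fun i => (ha i).rs f) hf.symm hφ
    exact ih2 k k' hk hk' W hW (fun i => rs f (a i)) (fun i => (ha i).rs f) W' hW'
      (fun i => rs f' (a' i)) (fun i => (ha' i).rs f') hf (h W hW f h1)
  | all φ ih =>
    intro k k' hk hk' Z hZ a ha Z' hZ' a' ha' hR h W' hW' f' b' hb'
    obtain ⟨W, hW, f, hf⟩ := extend hK hk (RV (fun i => rs f' (a' i)))
      (fun c hc d hd => RV_add hc hd) (fun c hc => hc.1) _ Z hZ a ha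
      (by rw [hR]; exact RV_rs f' a') le_rfl
    by_cases hdep : ∃ t : _ → ZMod 2, ∑ i, t i = 1 ∧ Cb (lc (fun i => rs f' (a' i)) t + b')
    · obtain ⟨t, ht, hdep⟩ := hdep
      have hb : NZ (lc (fun i => rs f (a i)) t) := NZ_lc (fun i => (ha i).rs f) t
      refine ih k k' hk hk' W hW _ (NZ_snoc (fun i => (ha i).rs f) hb) W' hW' _
        (NZ_snoc (fun i => (ha' i).rs f') hb') ?_ (h W hW f _ hb)
      refine RV_dep hf t ht ?_ hdep
      rw [add_self_zero]
      exact Cb.zero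
    · obtain ⟨V, hV, g, b, hb, hb1, hb2⟩ := hI k hk W hW
      have h1 := h V hV (g ≫ f) b hb
      have hf2 : RV (fun i => rs (g ≫ f) (a i)) = RV (fun i => rs f' (a' i)) := by
        rw [← hf]
        refine subset_antisymm ?_ ?_
        · intro c hc
          refine ⟨hc.1, ?_⟩
          refine hb1 _ (NZ_lc (fun i => (ha i).rs f) c) ?_
          have h2 := hc.2
          have h3 : lc (fun i => rs (g ≫ f) (a i)) c = rs g (lc (fun i => rs f (a i)) c) :=
            (lc_rs g (fun i => rs f (a i)) c).symm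
          rw [h3] at h2
          exact h2
        · exact RV_rs g (fun i => rs f (a i))
      refine ih k k' hk hk' V hV _ (NZ_snoc (fun i => (ha i).rs (g ≫ f)) hb) W' hW' _
        (NZ_snoc (fun i => (ha' i).rs f') hb') ?_ h1
      refine RV_ind hf2 (fun t _ hc => ?_) (fun t ht hc => hdep ⟨t, ht, hc⟩)
      have h3 : lc (fun i => rs (g ≫ f) (a i)) t = rs g (lc (fun i => rs f (a i)) t) :=
        (lc_rs g (fun i => rs f (a i)) t).symm
      rw [h3] at hc
      exact hb2 _ (NZ_lc (fun i => (ha i).rs f) t) hc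
  | @ex m φ ih =>
    rintro k k' hk hk' Z hZ a ha Z' hZ' a' ha' hR ⟨b, hb, h⟩
    by_cases hdep : ∃ t : _ → ZMod 2, ∑ i, t i = 1 ∧ Cb (lc a t + b)
    · obtain ⟨t, ht, hdep⟩ := hdep
      have hb' : NZ (lc a' t) := NZ_lc ha' t
      refine ⟨lc a' t, hb', ?_⟩
      refine ih k k' hk hk' Z hZ _ (NZ_snoc ha hb) Z' hZ' _ (NZ_snoc ha' hb') ?_ h
      refine RV_dep hR t ht hdep ?_
      rw [add_self_zero]
      exact Cb.zero
    · rcases Nat.eq_zero_or_pos m with hm | hm
      · subst hm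
        refine ⟨0, NZ_zero, ?_⟩
        refine ih k k' hk hk' Z hZ _ (NZ_snoc ha hb) Z' hZ' _ (NZ_snoc ha' NZ_zero) ?_ h
        refine RV_ind hR (fun t ht => ?_) (fun t ht => ?_)
        · exfalso
          simp at ht
        · exfalso
          simp at ht
      · set i0 : Fin m := ⟨0, hm⟩ with hi0
        obtain ⟨W, hW, f, hf1, hf2⟩ := hK k hk Z hZ (a i0 + b) (NZ_add (ha i0) hb)
        have hRW : RV (fun i => rs f (a i)) = RV a := by
          refine subset_antisymm ?_ (RV_rs f a)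
          intro c hc
          refine ⟨hc.1, ?_⟩
          have hc2 := hc.2
          rw [← lc_rs] at hc2
          rcases hf2 (lc a c) (NZ_lc ha c) hc2 with h1 | h1
          · exact h1
          · exfalso
            refine hdep ⟨c + Pi.single i0 1, ?_, ?_⟩
            · simp only [Pi.add_apply, Finset.sum_add_distrib, sum_single, hc.1, zero_add]
            · rw [lc_add, lc_single, add_assoc]
              exact h1
        refine ⟨a' i0, ha' i0, ?_⟩
        have h1 := mono k φ Z _ W f h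
        rw [rs_snoc] at h1
        refine ih k k' hk hk' W hW _ (NZ_snoc (fun i => (ha i).rs f) (hb.rs f)) Z' hZ' _
          (NZ_snoc ha' (ha' i0)) ?_ h1
        refine RV_dep (hRW.trans hR) (Pi.single i0 1) (sum_single i0) ?_ ?_
        · rw [lc_single, ← rs_add]
          exact hf1
        · rw [lc_single, add_self_zero]
          exact Cb.zero

theorem s_BIS (hK : S_KIL) (hI : S_IND) : S_BIS := by
  intro k k' hk hk' n φ Z hZ a ha Z' hZ' a' ha' hR h
  refine bisV hK hI φ k k' hk hk' Z hZ a ha Z' hZ' a' ha' ?_ h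
  ext c
  rw [mem_RV_iff, mem_RV_iff, hR]

end Pool.Agent.L7h3.HS
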