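import Pool.Agent.L7h74.HS.StmD

/-!
# Project HS, part EXT

Extension of cocycles modulo two, given the relative acyclicity.
-/

set_option autoImplicit false

namespace Pool.Agent.L7h3.HS

open Finsupp
open Pool.Agent.Helper922.HB.Sc (Sing sface sbd bd bd_single bd_bd sface_sface alt_cancel
  supported_map sbd_sbd evc)
open Pool.Agent.H904R2 (Ch)
open Pool.Agent.L7h74.HS

section Pl

variable {X : Type} [TopologicalSpace X]

theorem pl_pl {p q m : ℕ} (σ : Sing X m) (g : Fin (q + 1) → Fin (m + 1))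
    (h : Fin (p + 1) → Fin (q + 1)) : pl (pl σ g) h = pl σ (g ∘ h) := by
  apply ContinuousMap.ext
  intro x
  simp only [pl, ContinuousMap.comp_apply, ContinuousMap.coe_mk, stdSimplex.map_comp_apply]

theorem pl_id {m : ℕ} (σ : Sing X m) : pl σ id = σ := by
  apply ContinuousMap.ext
  intro x
  simp only [pl, ContinuousMap.comp_apply, ContinuousMap.coe_mk, stdSimplex.map_id_apply]

theorem pl_comp {X' : Type} [TopologicalSpace X'] (inc : C(X, X')) {q m : ℕ} (σ : Sing X m)
    (g : Fin (q + 1) → Fin (m + 1)) : pl (inc.comp σ) g = inc.comp (pl σ g) := rfl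

theorem sface_pl {m : ℕ} (i : Fin (m + 2)) (σ : Sing X (m + 1)) :
    sface m i σ = pl σ i.succAbove := rfl

end Pl

section Red

variable {S T : Type}

/-- reduction modulo two -/
noncomputable def red : (S →₀ ℤ) →ₗ[ℤ] (S →₀ ZMod 2) :=
  Finsupp.mapRange.linearMap (Int.castAddHom (ZMod 2)).toIntLinearMap

theorem red_apply (z : S →₀ ℤ) (s : S) : red z s = (z s : ZMod 2) := by
  simp [red]

theorem red_single (s : S) (n : ℤ) : red (single s n) = single s (n : ZMod 2) := by
  simp [red]

theorem red_surj (z : S →₀ ZMod 2) : ∃ y : S →₀ ℤ, red y = z := by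
  refine ⟨z.mapRange (fun a => (a.val : ℤ)) (by simp), ?_⟩
  ext s
  rw [red_apply, mapRange_apply]
  push_cast
  exact ZMod.natCast_zmod_val (z s)

/-- evaluation -/
noncomputable def ev2 (w : S → ZMod 2) : (S →₀ ZMod 2) →ₗ[ZMod 2] ZMod 2 :=
  Finsupp.linearCombination (ZMod 2) w

theorem ev2_red (w : S → ZMod 2) (z : S →₀ ℤ) : ev2 w (red z) = evc w z := by
  have : ((ev2 w).restrictScalars ℤ).comp red = evc w := by
    apply Finsupp.lhom_ext'
    intro s
    apply LinearMap.ext_ring
    simp only [LinearMap.comp_apply, lsingle_apply, red_single, LinearMap.restrictScalars_apply,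
      ev2, evc, linearCombination_single]
    simp
  exact LinearMap.congr_fun this z

end Red

section Core

variable {X : Type} [TopologicalSpace X]

/-- the boundary modulo two -/
noncomputable def bd2 (X : Type) [TopologicalSpace X] (q : ℕ) :
    (Sing X (q + 1) →₀ ZMod 2) →ₗ[ZMod 2] (Sing X q →₀ ZMod 2) :=
  Finsupp.linearCombination (ZMod 2) (fun σ => ∑ i : Fin (q + 2), single (pl σ i.succAbove) 1)

theorem neg_one_pow2 (n : ℕ) : (((-1 : ℤ) ^ n : ℤ) : ZMod 2) = 1 := by
  push_cast
  have : (-1 : ZMod 2) = 1 := by decide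
  rw [this, one_pow]

theorem bd2_red (q : ℕ) (z : Ch X (q + 1)) : bd2 X q (red z) = red (sbd X q z) := by
  have : ((bd2 X q).restrictScalars ℤ).comp red = red.comp (sbd X q) := by
    apply Finsupp.lhom_ext'
    intro s
    apply LinearMap.ext_ring
    simp only [LinearMap.comp_apply, lsingle_apply, red_single, LinearMap.restrictScalars_apply]
    rw [sbd, bd_single, map_sum, bd2, linearCombination_single]
    simp only [Int.cast_one, one_smul]
    refine Finset.sum_congr rfl fun i _ => ?_
    rw [smul_single, red_single, smul_eq_mul, mul_one, neg_one_pow2]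
    rfl
  exact LinearMap.congr_fun this z

theorem evc_sbd (q : ℕ) (w : Sing X q → ZMod 2) (σ : Sing X (q + 1)) :
    evc w (sbd X q (single σ 1)) = ∑ i : Fin (q + 2), w (pl σ i.succAbove) := by
  rw [sbd, bd_single, map_sum]
  refine Finset.sum_congr rfl fun i _ => ?_
  rw [smul_single, smul_eq_mul, mul_one, evc, linearCombination_single, zsmul_eq_mul,
    neg_one_pow2, one_mul]
  rfl

/-- the extension of a cochain to a cocycle -/
theorem core {A : ∀ q, Set (Sing X q)} (hA : Acyclic A) {k : ℕ}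
    (hface : ∀ σ ∈ A (k + 1), ∀ i : Fin (k + 2), pl σ i.succAbove ∈ A k)
    (w : Sing X (k + 1) → ZMod 2)
    (hw : ∀ σ ∈ A (k + 2), ∑ i : Fin (k + 3), w (pl σ i.succAbove) = 0) :
    ∃ u : Sing X (k + 1) → ZMod 2, (∀ σ ∈ A (k + 1), u σ = w σ) ∧
      ∀ σ : Sing X (k + 2), ∑ i : Fin (k + 3), u (pl σ i.succAbove) = 0 := by
  classical
  have key : ev2 w ∈ ((Finsupp.supported (ZMod 2) (ZMod 2) (A (k + 1))) ⊓
      LinearMap.range (bd2 X (k + 1))).dualAnnihilator := by
    rw [Submodule.mem_dualAnnihilator]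
    rintro a2 ⟨ha, ⟨y2, hy2⟩⟩
    obtain ⟨y, rfl⟩ := red_surj y2
    rw [bd2_red] at hy2
    set a : Ch X (k + 1) := (sbd X (k + 1) y).filter (· ∈ A (k + 1)) with ha_def
    have haA : a ∈ supported ℤ ℤ (A (k + 1)) := by
      rw [Finsupp.mem_supported]
      intro s hs
      rw [ha_def, Finset.mem_coe, Finsupp.support_filter, Finset.mem_filter] at hs
      exact hs.2
    have hra : red a = a2 := by
      ext s
      rw [red_apply, ha_def, Finsupp.filter_apply]
      split_ifs with hs
      · rw [← red_apply, hy2]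
      · rw [Int.cast_zero]
        have h1 := (Finsupp.mem_supported' _ _).1 ha s hs
        exact h1.symm
    have hev : ∀ s, ∃ x : ℤ, (sbd X (k + 1) y - a) s = 2 * x := by
      intro s
      have h1 : (((sbd X (k + 1) y - a) s : ℤ) : ZMod 2) = 0 := by
        rw [← red_apply, map_sub, hra, hy2, sub_self]
        rfl
      rw [ZMod.intCast_zmod_eq_zero_iff_dvd] at h1
      obtain ⟨x, hx⟩ := h1
      exact ⟨x, by exact_mod_cast hx⟩
    have hx : ∃ x : Ch X (k + 1), sbd X (k + 1) y - a = (2 : ℤ) • x := by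
      refine ⟨(sbd X (k + 1) y - a).mapRange (fun n => n / 2) (by simp), ?_⟩
      ext s
      rw [Finsupp.smul_apply, Finsupp.mapRange_apply]
      obtain ⟨x, hx⟩ := hev s
      rw [hx, smul_eq_mul]
      omega
    obtain ⟨x, hx⟩ := hx
    have h1 : sbd X k a = -((2 : ℤ) • sbd X k x) := by
      have h2 : a = sbd X (k + 1) y - (2 : ℤ) • x := by
        rw [← hx]
        abel
      rw [h2, map_sub, sbd_sbd, map_smul, zero_sub]
    have h2 : sbd X k a ∈ supported ℤ ℤ (A k) := by
      refine supported_map _ (sbd X k) _ ?_ a haA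
      intro σ hσ
      rw [sbd, bd_single]
      refine Submodule.sum_mem _ fun i _ => Submodule.smul_mem _ _ ?_
      exact Finsupp.single_mem_supported _ _ (hface σ hσ i)
    have h3 : sbd X k x ∈ supported ℤ ℤ (A k) := by
      rw [Finsupp.mem_supported']
      intro s hs
      have h4 := (Finsupp.mem_supported' _ _).1 h2 s hs
      rw [h1, Finsupp.neg_apply, Finsupp.smul_apply, smul_eq_mul] at h4
      omega
    obtain ⟨y', hy'⟩ := hA.2 k x h3
    have h5 : sbd X (k + 1) (y - (2 : ℤ) • y') ∈ supported ℤ ℤ (A (k + 1)) := by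
      have h6 : sbd X (k + 1) (y - (2 : ℤ) • y') = a + (2 : ℤ) • (x - sbd X (k + 1) y') := by
        rw [map_sub, map_smul, smul_sub, ← hx]
        abel
      rw [h6]
      exact Submodule.add_mem _ haA (Submodule.smul_mem _ _ hy')
    obtain ⟨y3, hy3⟩ := hA.2 (k + 1) _ h5
    have h7 : a = sbd X (k + 1) (y - (2 : ℤ) • y' - sbd X (k + 2) y3) -
        (2 : ℤ) • (x - sbd X (k + 1) y') := by
      rw [map_sub, sbd_sbd, sub_zero, map_sub, map_smul, smul_sub, ← hx]
      abel
    have h8 : evc w (sbd X (k + 1) (y - (2 : ℤ) • y' - sbd X (k + 2) y3)) = 0 := by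
      have h9 := supported_map _ ((evc w).comp (sbd X (k + 1))) ⊥ (by
        intro σ hσ
        rw [LinearMap.comp_apply, evc_sbd, hw σ hσ]
        exact Submodule.zero_mem _) _ hy3
      rw [Submodule.mem_bot, LinearMap.comp_apply] at h9
      exact h9
    have h10 : (2 : ℤ) • evc w (x - sbd X (k + 1) y') = 0 := by
      rw [zsmul_eq_mul]
      have : ((2 : ℤ) : ZMod 2) = 0 := rfl
      rw [this, zero_mul]
    rw [← hra, ev2_red, h7, map_sub, map_smul, h8, h10, sub_zero]
  rw [Subspace.dualAnnihilator_inf_eq, Submodule.mem_sup] at key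
  obtain ⟨w1, h1, w2, h2, hsum⟩ := key
  rw [Submodule.mem_dualAnnihilator] at h1 h2
  refine ⟨fun σ => w2 (single σ 1), fun σ hσ => ?_, fun σ => ?_⟩
  · have h3 := h1 (single σ 1) (Finsupp.single_mem_supported _ _ hσ)
    have h4 : ev2 w (single σ 1) = w σ := by
      simp [ev2]
    rw [← hsum, LinearMap.add_apply, h3, zero_add] at h4
    exact h4
  · have h3 := h2 (bd2 X (k + 1) (single σ 1)) ⟨_, rfl⟩
    rw [bd2, linearCombination_single, one_smul, map_sum] at h3
    exact h3

end Core

section Nrm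

variable {X : Type} [TopologicalSpace X]

theorem cob_cob {q : ℕ} (β : Sing X q → ZMod 2) (σ : Sing X (q + 2)) :
    ∑ i : Fin (q + 3), ∑ j : Fin (q + 2), β (pl (pl σ i.succAbove) j.succAbove) = 0 := by
  have h := alt_cancel (k := ZMod 2) q
    (fun j i => β (pl (pl σ i.succAbove) j.succAbove)) (by
      intro i j hij
      exact congrArg β (sface_sface q i j σ hij))
  have h1 : (-1 : ZMod 2) = 1 := by decide
  simpa [h1] using h

theorem pl_congr {q m : ℕ} (σ : Sing X m) {g h : Fin (q + 1) → Fin (m + 1)} (e : g = h) :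
    pl σ g = pl σ h := by rw [e]

/-- the correction that makes a cocycle normalised -/
theorem nrm_fix {X' : Type} [TopologicalSpace X'] (inc : C(X, X')) {k : ℕ} (hk : k ≤ 1)
    (u : Sing X (k + 1) → ZMod 2) (hu : SZ k u) (v : Sing X' (k + 1) → ZMod 2)
    (hv : ∀ σ : Sing X' (k + 2), ∑ i : Fin (k + 3), v (pl σ i.succAbove) = 0)
    (hvu : ∀ σ, v (inc.comp σ) = u σ) :
    ∃ v' : Sing X' (k + 1) → ZMod 2, SZ k v' ∧
      ∀ σ : Sing X' (k + 1), (∀ i : Fin (k + 2), ∃ e : Sing X k, pl σ i.succAbove = inc.comp e) →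
        v' σ = v σ := by
  classical
  have h2 : k = 0 ∨ k = 1 := by omega
  rcases h2 with rfl | rfl
  · refine ⟨v, ⟨hv, ?_⟩, fun _ _ => rfl⟩
    intro i σ
    have h1 := hv (pl σ (fun _ => 0))
    have h3 : ∀ j : Fin 3, v (pl (pl σ (fun _ => 0) : Sing X' 2) j.succAbove) =
        v (pl σ i.predAbove) := by
      intro j
      rw [pl_pl]
      refine congrArg v (pl_congr σ ?_)
      funext x
      exact Subsingleton.elim (α := Fin 1) _ _
    rw [Fin.sum_univ_three, h3, h3, h3, CharTwo.add_self_eq_zero, zero_add] at h1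
    exact h1
  · -- degree two
    let h : Sing X' 0 → ZMod 2 := fun x => v (pl x (fun _ => 0))
    let β : Sing X' 1 → ZMod 2 := fun e =>
      if ∃ x : Sing X' 0, e = pl x (fun _ => 0) then h (pl e (fun _ => 0)) else 0
    have hβ : ∀ x : Sing X' 0, β (pl x (fun _ => 0)) = h x := by
      intro x
      have h3 : β (pl x (fun _ => 0)) = h (pl (pl x (fun _ => 0) : Sing X' 1) (fun _ => 0)) :=
        if_pos ⟨x, rfl⟩
      rw [h3, pl_pl]
      have h4 : pl x ((fun _ => 0) ∘ (fun _ => 0) : Fin (0 + 1) → Fin (0 + 1)) = x := by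
        have h5 : ((fun _ => 0) ∘ (fun _ => 0) : Fin (0 + 1) → Fin (0 + 1)) = id := by
          funext y
          exact Subsingleton.elim (α := Fin 1) _ _
        rw [h5, pl_id]
      exact congrArg h h4
    have hs0 : ∀ e : Sing X' 1, v (pl e (![0, 0, 1] : Fin 3 → Fin 2)) =
        h (pl e (fun _ => 0)) := by
      intro e
      have h1 := hv (pl e (![0, 0, 0, 1] : Fin 4 → Fin 2))
      change ∑ i : Fin 4, v (pl (pl e (![0, 0, 0, 1] : Fin 4 → Fin 2)) i.succAbove) = 0 at h1
      rw [Fin.sum_univ_four, pl_pl, pl_pl, pl_pl, pl_pl] at h1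
      have a0 : (![0, 0, 0, 1] : Fin 4 → Fin 2) ∘ (0 : Fin 4).succAbove = ![0, 0, 1] := by decide
      have a1 : (![0, 0, 0, 1] : Fin 4 → Fin 2) ∘ (1 : Fin 4).succAbove = ![0, 0, 1] := by decide
      have a2 : (![0, 0, 0, 1] : Fin 4 → Fin 2) ∘ (2 : Fin 4).succAbove = ![0, 0, 1] := by decide
      have a3 : (![0, 0, 0, 1] : Fin 4 → Fin 2) ∘ (3 : Fin 4).succAbove =
        (fun _ => 0) ∘ (fun _ : Fin 3 => (0 : Fin 1)) := by decide
      rw [pl_congr e a0, pl_congr e a1, pl_congr e a2, pl_congr e a3,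
        CharTwo.add_self_eq_zero, zero_add] at h1
      rw [CharTwo.add_eq_zero] at h1
      rw [h1]
      change _ = v (pl (pl e (fun _ => 0)) (fun _ => 0))
      rw [pl_pl]
    have hs1 : ∀ e : Sing X' 1, v (pl e (![0, 1, 1] : Fin 3 → Fin 2)) =
        h (pl e (fun _ => 1)) := by
      intro e
      have h1 := hv (pl e (![0, 1, 1, 1] : Fin 4 → Fin 2))
      change ∑ i : Fin 4, v (pl (pl e (![0, 1, 1, 1] : Fin 4 → Fin 2)) i.succAbove) = 0 at h1
      rw [Fin.sum_univ_four, pl_pl, pl_pl, pl_pl, pl_pl] at h1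
      have a0 : (![0, 1, 1, 1] : Fin 4 → Fin 2) ∘ (0 : Fin 4).succAbove =
        (fun _ => 1) ∘ (fun _ : Fin 3 => (0 : Fin 1)) := by decide
      have a1 : (![0, 1, 1, 1] : Fin 4 → Fin 2) ∘ (1 : Fin 4).succAbove = ![0, 1, 1] := by decide
      have a2 : (![0, 1, 1, 1] : Fin 4 → Fin 2) ∘ (2 : Fin 4).succAbove = ![0, 1, 1] := by decide
      have a3 : (![0, 1, 1, 1] : Fin 4 → Fin 2) ∘ (3 : Fin 4).succAbove = ![0, 1, 1] := by decide
      rw [pl_congr e a0, pl_congr e a1, pl_congr e a2, pl_congr e a3, add_assoc,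
        CharTwo.add_self_eq_zero, add_zero, CharTwo.add_eq_zero] at h1
      rw [← h1]
      change _ = v (pl (pl e (fun _ => 1)) (fun _ => 0))
      rw [pl_pl]
    have hX : ∀ e : Sing X 1, β (inc.comp e) = 0 := by
      intro e
      by_cases hx : ∃ x : Sing X' 0, inc.comp e = pl x (fun _ => 0)
      · have h3 : β (inc.comp e) = h (pl (inc.comp e) (fun _ => 0)) := if_pos hx
        rw [h3, pl_comp]
        change v (pl (inc.comp (pl e (fun _ => 0))) (fun _ => 0)) = 0
        rw [pl_comp, hvu]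
        have h4 := hu.nrm (0 : Fin 2) (pl (pl e (fun _ => 0) : Sing X 0) (fun _ => 0))
        rw [pl_pl] at h4
        rw [← h4]
        refine congrArg u (pl_congr _ ?_)
        funext y
        exact Subsingleton.elim (α := Fin 1) _ _
      · exact if_neg hx
    refine ⟨fun σ => v σ + ∑ i : Fin 3, β (pl σ i.succAbove), ⟨?_, ?_⟩, ?_⟩
    · intro σ
      rw [Finset.sum_add_distrib, hv σ, zero_add]
      exact cob_cob β σ
    · intro i e
      change v (pl e i.predAbove) + ∑ j : Fin 3, β (pl (pl e i.predAbove) j.succAbove) = 0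
      rw [Fin.sum_univ_three, pl_pl, pl_pl, pl_pl]
      have hi : i = (0 : Fin 2) ∨ i = (1 : Fin 2) := by
        revert i
        decide
      rcases hi with rfl | rfl
      · have b : (Fin.predAbove (0 : Fin 2) : Fin 3 → Fin 2) = ![0, 0, 1] := by decide
        have a0 : (Fin.predAbove (0 : Fin 2) : Fin 3 → Fin 2) ∘ (0 : Fin 3).succAbove = id := by
          decide
        have a1 : (Fin.predAbove (0 : Fin 2) : Fin 3 → Fin 2) ∘ (1 : Fin 3).succAbove = id := by
          decide
        have a2 : (Fin.predAbove (0 : Fin 2) : Fin 3 → Fin 2) ∘ (2 : Fin 3).succAbove =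
          (fun _ => 0) ∘ (fun _ : Fin 2 => (0 : Fin 1)) := by decide
        have c : v (pl e (Fin.predAbove (0 : Fin 2) : Fin 3 → Fin 2)) =
          h (pl e (fun _ => 0)) := by rw [pl_congr e b, hs0]
        have key : ∀ a b : ZMod 2, a + (b + b + a) = 0 := by decide
        rw [c, pl_congr e a0, pl_congr e a1, pl_congr e a2, ← pl_pl, hβ]
        exact key _ _
      · have b : (Fin.predAbove (1 : Fin 2) : Fin 3 → Fin 2) = ![0, 1, 1] := by decide
        have a0 : (Fin.predAbove (1 : Fin 2) : Fin 3 → Fin 2) ∘ (0 : Fin 3).succAbove =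
          (fun _ => 1) ∘ (fun _ : Fin 2 => (0 : Fin 1)) := by decide
        have a1 : (Fin.predAbove (1 : Fin 2) : Fin 3 → Fin 2) ∘ (1 : Fin 3).succAbove = id := by
          decide
        have a2 : (Fin.predAbove (1 : Fin 2) : Fin 3 → Fin 2) ∘ (2 : Fin 3).succAbove = id := by
          decide
        have c : v (pl e (Fin.predAbove (1 : Fin 2) : Fin 3 → Fin 2)) =
          h (pl e (fun _ => 1)) := by rw [pl_congr e b, hs1]
        have key : ∀ a b : ZMod 2, a + (a + b + b) = 0 := by decide
        rw [c, pl_congr e a0, pl_congr e a1, pl_congr e a2, ← pl_pl, hβ]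
        exact key _ _
    · intro σ hσ
      change v σ + ∑ i : Fin 3, β (pl σ i.succAbove) = v σ
      rw [Finset.sum_eq_zero, add_zero]
      intro i _
      obtain ⟨e, he⟩ := hσ i
      rw [he, hX]

end Nrm

section Main

theorem image_X {X X' : Type} [TopologicalSpace X] [TopologicalSpace X'] {inc : C(X, X')}
    (he : Topology.IsClosedEmbedding inc) {q : ℕ} (σ : Sing X' q)
    (hσ : Set.range σ ⊆ Set.range inc) : ∃ σ' : Sing X q, σ = inc.comp σ' := by
  have h : ∀ t, ∃ x, inc x = σ t := fun t => hσ ⟨t, rfl⟩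
  choose s hs using h
  have hc : Continuous s := by
    rw [he.isEmbedding.continuous_iff]
    have : inc ∘ s = σ := funext hs
    rw [this]
    exact σ.continuous
  exact ⟨⟨s, hc⟩, ContinuousMap.ext fun t => (hs t).symm⟩

theorem inc_inj {X X' : Type} [TopologicalSpace X] [TopologicalSpace X'] {inc : C(X, X')}
    (he : Topology.IsClosedEmbedding inc) {q : ℕ} {σ σ' : Sing X q}
    (h : inc.comp σ = inc.comp σ') : σ = σ' := by
  apply ContinuousMap.ext
  intro t
  exact he.injective (DFunLike.congr_fun h t)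

variable {X X' : Type} [TopologicalSpace X] [T2Space X] [TopologicalSpace X']
    [T2Space X'] {inc : C(X, X')} {J : Type} {m : ℕ} {f : J → C(Bd (m + 1), X)}
    {Φ : J → Sing X' (m + 1)}

theorem pl_bd (hA : Attached inc m f Φ) (j : J) {q : ℕ} (g : Fin (q + 1) → Fin (m + 2))
    (hg : ¬ Function.Surjective g) : pl (Φ j) g = inc.comp (bpl (f j) g hg) := by
  apply ContinuousMap.ext
  intro t
  exact hA.bd j ⟨stdSimplex.map g t, map_mem_bd g hg t⟩

theorem mono_bij {q : ℕ} (g : Fin q →o Fin q) (hg : Function.Bijective g) : g = OrderHom.id := by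
  have h1 : StrictMono g := g.monotone.strictMono_of_injective hg.1
  have h2 : (g : Fin q → Fin q) = id := by
    refine (StrictMono.range_inj h1 strictMono_id).1 ?_
    rw [hg.2.range_eq, Set.range_id]
  exact OrderHom.ext _ _ h2

theorem exists_w (hA : Attached inc m f Φ) {k : ℕ} (u : Sing X (k + 1) → ZMod 2)
    (c : J → (Fin (k + 2) →o Fin (m + 2)) → ZMod 2) :
    ∃ w : Sing X' (k + 1) → ZMod 2, (∀ σ, w (inc.comp σ) = u σ) ∧
      ∀ j (g : Fin (k + 2) →o Fin (m + 2)), Function.Bijective g → w (pl (Φ j) g) = c j g := by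
  classical
  by_cases hmk : m = k
  · subst hmk
    refine ⟨fun σ => if h : ∃ σ' : Sing X (m + 1), σ = inc.comp σ' then u h.choose else
      if h : ∃ j, σ = Φ j then c h.choose OrderHom.id else 0, ?_, ?_⟩
    · intro σ
      have h : ∃ σ' : Sing X (m + 1), inc.comp σ = inc.comp σ' := ⟨σ, rfl⟩
      change (if h : ∃ σ' : Sing X (m + 1), inc.comp σ = inc.comp σ' then u h.choose else
        if h : ∃ j, inc.comp σ = Φ j then c h.choose OrderHom.id else 0) = u σ
      rw [dif_pos h]
      exact congrArg u (inc_inj hA.emb h.choose_spec).symm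
    · intro j g hg
      have hgi := mono_bij g hg
      subst hgi
      have h0 : pl (Φ j) (OrderHom.id : Fin (m + 2) →o Fin (m + 2)) = Φ j := pl_id _
      rw [h0]
      have hb : ∀ i, (stdSimplex.barycenter : stdSimplex ℝ (Fin (m + 2))).1 i ≠ 0 := by
        intro i
        rw [stdSimplex.barycenter_apply]
        rw [Fintype.card_fin]
        positivity
      have h1 : ¬ ∃ σ' : Sing X (m + 1), Φ j = inc.comp σ' := by
        rintro ⟨σ', hσ'⟩
        refine hA.int j _ hb ⟨σ' stdSimplex.barycenter, ?_⟩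
        rw [hσ']
        rfl
      have h2 : ∃ j', Φ j = Φ j' := ⟨j, rfl⟩
      change (if h : ∃ σ' : Sing X (m + 1), Φ j = inc.comp σ' then u h.choose else
        if h : ∃ j', Φ j = Φ j' then c h.choose OrderHom.id else 0) = c j OrderHom.id
      rw [dif_neg h1, dif_pos h2]
      have h3 : j = h2.choose :=
        (hA.inj j h2.choose stdSimplex.barycenter stdSimplex.barycenter hb hb
          (by rw [← h2.choose_spec])).1
      rw [← h3]
  · refine ⟨fun σ => if h : ∃ σ' : Sing X (k + 1), σ = inc.comp σ' then u h.choose else 0, ?_, ?_⟩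
    · intro σ
      have h : ∃ σ' : Sing X (k + 1), inc.comp σ = inc.comp σ' := ⟨σ, rfl⟩
      change (if h : ∃ σ' : Sing X (k + 1), inc.comp σ = inc.comp σ' then u h.choose else 0) = u σ
      rw [dif_pos h]
      exact congrArg u (inc_inj hA.emb h.choose_spec).symm
    · intro j g hg
      exfalso
      have h1 := Fintype.card_of_bijective hg
      rw [Fintype.card_fin, Fintype.card_fin] at h1
      omega

/-- monotone maps that are not injective factor through a degeneracy -/
theorem factor {k m : ℕ} (g : Fin (k + 2) →o Fin (m + 2)) (hg : ¬ Function.Injective g) :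
    ∃ (i : Fin (k + 1)) (g' : Fin (k + 1) → Fin (m + 2)), (g : Fin (k + 2) → Fin (m + 2)) =
      g' ∘ i.predAbove := by
  have h1 : ∃ a b : Fin (k + 2), a < b ∧ g a = g b := by
    rw [Function.Injective] at hg
    push Not at hg
    obtain ⟨a, b, hab, hne⟩ := hg
    rcases lt_or_gt_of_ne hne with h | h
    · exact ⟨a, b, h, hab⟩
    · exact ⟨b, a, h, hab.symm⟩
  obtain ⟨a, b, hab, he⟩ := h1
  have ha : a.1 < k + 1 := by
    have := b.2
    have h2 : a.1 < b.1 := hab
    omega
  set i : Fin (k + 1) := ⟨a.1, ha⟩ with hi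
  have h2 : g i.castSucc = g i.succ := by
    apply le_antisymm
    · exact g.monotone (Fin.castSucc_lt_succ).le
    · have h3 : i.castSucc = a := rfl
      have h4 : i.succ ≤ b := by
        rw [Fin.le_def]
        have h2 : a.1 < b.1 := hab
        exact h2
      rw [h3, he]
      exact g.monotone h4
  refine ⟨i, g ∘ i.succ.succAbove, ?_⟩
  funext x
  by_cases hx : x = i.succ
  · subst hx
    simp only [Function.comp_apply]
    rw [Fin.predAbove_succ_self, Fin.succAbove_succ_self, h2]
  · simp only [Function.comp_apply]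
    rw [Fin.succ_succAbove_predAbove hx]

theorem s_EXT : S_EXT := by
  intro k hk X X' _ _ _ _ inc J m f Φ hA hac u hu c hc
  obtain ⟨w, hw1, hw2⟩ := exists_w hA u c
  -- values on the faces
  have hval : ∀ j (g : Fin (k + 2) →o Fin (m + 2)), ¬ Function.Surjective g →
      w (pl (Φ j) g) = c j g := by
    intro j g hg
    rw [pl_bd hA j g hg, hw1, (hc j).bd g hg]
  have hface : ∀ σ ∈ cells inc Φ (k + 1), ∀ i : Fin (k + 2),
      pl σ i.succAbove ∈ cells inc Φ k := by
    rintro σ (hσ | ⟨j, hj⟩) i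
    · left
      rintro _ ⟨t, rfl⟩
      exact hσ ⟨_, rfl⟩
    · have hm : k + 1 = m + 1 := congrArg Sigma.fst hj
      obtain rfl : m = k := by omega
      have hj2 : σ = Φ j := by
        have := (Sigma.mk.inj_iff.1 hj).2
        exact eq_of_heq this
      subst hj2
      left
      have hns : ¬ Function.Surjective (i.succAbove) := by
        intro hs
        obtain ⟨x, hx⟩ := hs i
        exact Fin.succAbove_ne i x hx
      rw [pl_bd hA j i.succAbove hns]
      rintro _ ⟨t, rfl⟩
      exact ⟨_, rfl⟩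
  have hwc : ∀ σ ∈ cells inc Φ (k + 2), ∑ i : Fin (k + 3), w (pl σ i.succAbove) = 0 := by
    rintro σ (hσ | ⟨j, hj⟩)
    · obtain ⟨σ', rfl⟩ := image_X hA.emb σ hσ
      rw [← hu.coc σ']
      refine Finset.sum_congr rfl fun i _ => ?_
      rw [pl_comp, hw1]
    · have hm : k + 2 = m + 1 := congrArg Sigma.fst hj
      obtain rfl : m = k + 1 := by omega
      have hj2 : σ = Φ j := by
        have := (Sigma.mk.inj_iff.1 hj).2
        exact eq_of_heq this
      subst hj2
      rw [← (hc j).coc OrderHom.id]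
      refine Finset.sum_congr rfl fun i _ => ?_
      let g : Fin (k + 2) →o Fin (k + 1 + 2) := (OrderHom.id : Fin (k + 3) →o Fin (k + 1 + 2)).comp
            (Fin.succAboveOrderEmb i).toOrderHom
      have hgi : ∀ x, g x = i.succAbove x := fun x => rfl
      have hns : ¬ Function.Surjective g := by
        intro hs
        obtain ⟨x, hx⟩ := hs i
        rw [hgi] at hx
        exact Fin.succAbove_ne i x hx
      have h1 : w (pl (Φ j) g) = c j g := hval j g hns
      refine Eq.trans ?_ h1
      exact congrArg (fun h : Fin (k + 2) → Fin (k + 3) => w (pl (Φ j) h)) (funext hgi).symm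
  obtain ⟨u0, hu1, hu2⟩ := core hac hface w hwc
  have hinc : ∀ σ : Sing X (k + 1), u0 (inc.comp σ) = u σ := by
    intro σ
    rw [hu1 _ (Or.inl (by rintro _ ⟨t, rfl⟩; exact ⟨_, rfl⟩)), hw1]
  obtain ⟨v, hv1, hv2⟩ := nrm_fix inc hk u hu u0 hu2 hinc
  have hvinc : ∀ σ : Sing X (k + 1), v (inc.comp σ) = u σ := by
    intro σ
    rw [hv2 _ (fun i => ⟨pl σ i.succAbove, rfl⟩), hinc]
  refine ⟨v, hv1, hvinc, fun j g => ?_⟩
  by_cases hs : Function.Surjective g
  · by_cases hi : Function.Injective g
    · have hcard := Fintype.card_of_bijective ⟨hi, hs⟩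
      rw [Fintype.card_fin, Fintype.card_fin] at hcard
      obtain rfl : m = k := by omega
      rw [hv2 _ (fun i => ?_), hu1 _ ?_, hw2 j g ⟨hi, hs⟩]
      · right
        refine ⟨j, ?_⟩
        have hgi := mono_bij g ⟨hi, hs⟩
        subst hgi
        have h0 : pl (Φ j) (OrderHom.id : Fin (m + 2) →o Fin (m + 2)) = Φ j := pl_id _
        rw [h0]
      · have hns : ¬ Function.Surjective (g ∘ i.succAbove) := by
          intro hs2
          obtain ⟨x, hx⟩ := hs2 (g i)
          exact Fin.succAbove_ne i x (hi hx)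
        rw [pl_pl, pl_bd hA j _ hns]
        exact ⟨_, rfl⟩
    · rw [(hc j).nrm g hi]
      obtain ⟨i, g', hg'⟩ := factor g hi
      rw [hg', ← pl_pl]
      exact hv1.nrm i _
  · rw [pl_bd hA j g hs, hvinc, (hc j).bd g hs]

end Main

end Pool.Agent.L7h3.HS
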