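import Pool.Agent.L7h74.HS.Stm

/-!
# Project HS, part FOR

The two notions of forcing agree.
-/

set_option autoImplicit false

namespace Pool.Agent.L7h3.HS

open CategoryTheory Opposite Pool.Agent.L7h74.HS

theorem ev_comp {Z W : SSet.{0}} {k : ℕ} (f : W ⟶ Z) (g : Z ⟶ KK k) :
    ev (f ≫ g) = rs f (ev g) := rfl

theorem cns_pr_castSucc {X : SSet.{0}} {n : ℕ} {Z : SSet.{0}} (a : Z ⟶ pw X n) (b : Z ⟶ X)
    (i : Fin n) : cns a b ≫ pr X i.castSucc = a ≫ pr X i := by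
  ext m z
  change Fin.snoc (α := fun _ => X.obj m) (a.app m z) (b.app m z) i.castSucc = a.app m z i
  rw [Fin.snoc_castSucc]

theorem cns_pr_last {X : SSet.{0}} {n : ℕ} {Z : SSet.{0}} (a : Z ⟶ pw X n) (b : Z ⟶ X) :
    cns a b ≫ pr X (Fin.last n) = b := by
  ext m z
  change Fin.snoc (α := fun _ => X.obj m) (a.app m z) (b.app m z) (Fin.last n) = b.app m z
  rw [Fin.snoc_last]

theorem ev_cns {X : SSet.{0}} {k n : ℕ} {Z : SSet.{0}} (p : X ⟶ KK k) (a : Z ⟶ pw X n)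
    (b : Z ⟶ X) :
    (fun i => ev ((cns a b ≫ pr X i) ≫ p)) =
      Fin.snoc (α := fun _ => Sx Z (k + 1) → ZMod 2) (fun i => ev ((a ≫ pr X i) ≫ p))
        (ev (b ≫ p)) := by
  funext i
  refine Fin.lastCases ?_ (fun i => ?_) i
  · rw [Fin.snoc_last, cns_pr_last]
  · rw [Fin.snoc_castSucc, cns_pr_castSucc]

theorem s_FOR (hR : S_REP) (hT : S_TRN) : S_FOR := by
  intro k hk X p hp n φ
  obtain ⟨hT1, hT2⟩ := hT k hk X p hp
  induction φ with
  | top => exact fun _ _ => Iff.rfl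
  | bot => exact fun _ _ => Iff.rfl
  | eq i j => exact fun Z a => hT2 Z (a ≫ pr X i) (a ≫ pr X j)
  | and φ ψ ih1 ih2 => exact fun Z a => and_congr (ih1 Z a) (ih2 Z a)
  | or φ ψ ih1 ih2 => exact fun Z a => or_congr (ih1 Z a) (ih2 Z a)
  | imp φ ψ ih1 ih2 =>
    intro Z a
    refine forall_congr' fun W => forall_congr' fun _ => forall_congr' fun f => ?_
    exact imp_congr (ih1 W (f ≫ a)) (ih2 W (f ≫ a))
  | all φ ih =>
    intro Z a
    refine forall_congr' fun W => forall_congr' fun _ => forall_congr' fun f => ?_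
    constructor
    · intro h b hb
      obtain ⟨b', rfl⟩ := hT1 W b hb
      have h1 := (ih W (cns (f ≫ a) b')).1 (h b')
      rw [ev_cns] at h1
      exact h1
    · intro h b
      refine (ih W (cns (f ≫ a) b)).2 ?_
      rw [ev_cns]
      exact h _ ((hR k W).1 (b ≫ p))
  | ex φ ih =>
    intro Z a
    constructor
    · rintro ⟨b, hb⟩
      refine ⟨ev (b ≫ p), (hR k Z).1 (b ≫ p), ?_⟩
      have h1 := (ih Z (cns a b)).1 hb
      rw [ev_cns] at h1
      exact h1
    · rintro ⟨b, hb, h⟩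
      obtain ⟨b', rfl⟩ := hT1 Z b hb
      refine ⟨b', (ih Z (cns a b')).2 ?_⟩
      rw [ev_cns]
      exact h

end Pool.Agent.L7h3.HS
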