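import Pool.Agent.L7h74.HS.Stm

/-!
# Project HS, part TRN

Homotopy classes of maps to a fibrant model of `KK k` (`k = 0, 1`) are the cohomology classes.
-/

set_option autoImplicit false

namespace Pool.Agent.L7h3.HS

open CategoryTheory Opposite Limits MonoidalCategory Simplicial Pool.Agent.L7h74.HS

/-! ### Lifting -/

theorem lift_mono {X Y : SSet.{0}} {p : X ⟶ Y} (hp : TrivFib p) {A B : SSet.{0}} (i : A ⟶ B)
    [Mono i] (a : A ⟶ X) (b : B ⟶ Y) (h : a ≫ p = i ≫ b) :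
    ∃ l : B ⟶ X, i ≫ l = a ∧ l ≫ p = b := by
  have h1 : (MorphismProperty.monomorphisms SSet.{0}).rlp p := by
    rw [SSet.rlp_monomorphisms]
    exact hp
  have h2 : HasLiftingProperty i p := h1 i (MorphismProperty.monomorphisms.infer_property i)
  have sq : CommSq a i p b := ⟨h⟩
  exact ⟨sq.lift, sq.fac_left, sq.fac_right⟩

/-! ### Simplicial identities on elements -/

theorem dd {n : ℕ} (Z : SSet.{0}) (i j : Fin (n + 2)) (H : i ≤ j) (z : Sx Z (n + 2)) :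
    SimplicialObject.δ Z i (SimplicialObject.δ Z j.succ z) =
      SimplicialObject.δ Z j (SimplicialObject.δ Z i.castSucc z) :=
  ConcreteCategory.congr_hom (SimplicialObject.δ_comp_δ Z H) z

theorem ds_self {n : ℕ} (Z : SSet.{0}) (i : Fin (n + 1)) (z : Sx Z n) :
    SimplicialObject.δ Z i.castSucc (SimplicialObject.σ Z i z) = z :=
  ConcreteCategory.congr_hom (SimplicialObject.δ_comp_σ_self Z (i := i)) z

theorem ds_succ {n : ℕ} (Z : SSet.{0}) (i : Fin (n + 1)) (z : Sx Z n) :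
    SimplicialObject.δ Z i.succ (SimplicialObject.σ Z i z) = z :=
  ConcreteCategory.congr_hom (SimplicialObject.δ_comp_σ_succ Z (i := i)) z

theorem ds_le {n : ℕ} (Z : SSet.{0}) (i : Fin (n + 2)) (j : Fin (n + 1)) (H : i ≤ j.castSucc)
    (z : Sx Z (n + 1)) :
    SimplicialObject.δ Z i.castSucc (SimplicialObject.σ Z j.succ z) =
      SimplicialObject.σ Z j (SimplicialObject.δ Z i z) :=
  ConcreteCategory.congr_hom (SimplicialObject.δ_comp_σ_of_le Z H) z

theorem ds_gt {n : ℕ} (Z : SSet.{0}) (i : Fin (n + 2)) (j : Fin (n + 1)) (H : j.castSucc < i)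
    (z : Sx Z (n + 1)) :
    SimplicialObject.δ Z i.succ (SimplicialObject.σ Z j.castSucc z) =
      SimplicialObject.σ Z j (SimplicialObject.δ Z i z) :=
  ConcreteCategory.congr_hom (SimplicialObject.δ_comp_σ_of_gt Z H) z

theorem dl_dl0 {Z : SSet.{0}} (β : Sx Z 0 → ZMod 2) : dl (dl β) = 0 := by
  funext z
  change ∑ i : Fin 3, ∑ j : Fin 2, β (SimplicialObject.δ Z j (SimplicialObject.δ Z i z)) = 0
  simp only [Fin.sum_univ_three, Fin.sum_univ_two]
  have h1 : SimplicialObject.δ Z (0 : Fin 2) (SimplicialObject.δ Z (1 : Fin 3) z) =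
    SimplicialObject.δ Z (0 : Fin 2) (SimplicialObject.δ Z (0 : Fin 3) z) := dd Z 0 0 le_rfl z
  have h2 : SimplicialObject.δ Z (0 : Fin 2) (SimplicialObject.δ Z (2 : Fin 3) z) =
    SimplicialObject.δ Z (1 : Fin 2) (SimplicialObject.δ Z (0 : Fin 3) z) :=
    dd Z 0 1 (by decide) z
  have h3 : SimplicialObject.δ Z (1 : Fin 2) (SimplicialObject.δ Z (2 : Fin 3) z) =
    SimplicialObject.δ Z (1 : Fin 2) (SimplicialObject.δ Z (1 : Fin 3) z) :=
    dd Z 1 1 (by decide) z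
  rw [h1, h2, h3]
  have key : ∀ a b c : ZMod 2, a + b + (a + c) + (b + c) = 0 := by decide
  exact key _ _ _

theorem dl_dl1 {Z : SSet.{0}} (β : Sx Z 1 → ZMod 2) : dl (dl β) = 0 := by
  funext z
  change ∑ i : Fin 4, ∑ j : Fin 3, β (SimplicialObject.δ Z j (SimplicialObject.δ Z i z)) = 0
  simp only [Fin.sum_univ_four, Fin.sum_univ_three]
  have h1 : SimplicialObject.δ Z (0 : Fin 3) (SimplicialObject.δ Z (1 : Fin 4) z) =
    SimplicialObject.δ Z (0 : Fin 3) (SimplicialObject.δ Z (0 : Fin 4) z) := dd Z 0 0 le_rfl z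
  have h2 : SimplicialObject.δ Z (0 : Fin 3) (SimplicialObject.δ Z (2 : Fin 4) z) =
    SimplicialObject.δ Z (1 : Fin 3) (SimplicialObject.δ Z (0 : Fin 4) z) :=
    dd Z 0 1 (by decide) z
  have h3 : SimplicialObject.δ Z (0 : Fin 3) (SimplicialObject.δ Z (3 : Fin 4) z) =
    SimplicialObject.δ Z (2 : Fin 3) (SimplicialObject.δ Z (0 : Fin 4) z) :=
    dd Z 0 2 (by decide) z
  have h4 : SimplicialObject.δ Z (1 : Fin 3) (SimplicialObject.δ Z (2 : Fin 4) z) =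
    SimplicialObject.δ Z (1 : Fin 3) (SimplicialObject.δ Z (1 : Fin 4) z) :=
    dd Z 1 1 (by decide) z
  have h5 : SimplicialObject.δ Z (1 : Fin 3) (SimplicialObject.δ Z (3 : Fin 4) z) =
    SimplicialObject.δ Z (2 : Fin 3) (SimplicialObject.δ Z (1 : Fin 4) z) :=
    dd Z 1 2 (by decide) z
  have h6 : SimplicialObject.δ Z (2 : Fin 3) (SimplicialObject.δ Z (3 : Fin 4) z) =
    SimplicialObject.δ Z (2 : Fin 3) (SimplicialObject.δ Z (2 : Fin 4) z) :=
    dd Z 2 2 (by decide) z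
  rw [h1, h2, h3, h4, h5, h6]
  have key : ∀ a b c d e f : ZMod 2,
    a + b + c + (a + d + e) + (b + d + f) + (c + e + f) = 0 := by decide
  exact key _ _ _ _ _ _

/-! ### The prism operator -/

section

variable {Z K : SSet.{0}} {F G : Z ⟶ K} (H : SimplicialObject.Homotopy F G)

theorem prism0 (u : Sx K 1 → ZMod 2) (hu : dl u = 0) :
    rs F u + rs G u = dl (fun x : Sx Z 0 => u (H.h (0 : Fin 1) x)) := by
  funext e
  have c0 : ∑ i : Fin 3, u (SimplicialObject.δ K i (H.h (0 : Fin 2) e)) = 0 :=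
    congrFun hu (H.h (0 : Fin 2) e)
  have c1 : ∑ i : Fin 3, u (SimplicialObject.δ K i (H.h (1 : Fin 2) e)) = 0 :=
    congrFun hu (H.h (1 : Fin 2) e)
  rw [Fin.sum_univ_three] at c0 c1
  have e1 : SimplicialObject.δ K (0 : Fin 3) (H.h (0 : Fin 2) e) = G.app _ e :=
    ConcreteCategory.congr_hom (H.h_zero_comp_δ_zero 1) e
  have e2 : SimplicialObject.δ K (2 : Fin 3) (H.h (1 : Fin 2) e) = F.app _ e :=
    ConcreteCategory.congr_hom (H.h_last_comp_δ_last 1) e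
  have e3 : SimplicialObject.δ K (1 : Fin 3) (H.h (1 : Fin 2) e) =
      SimplicialObject.δ K (1 : Fin 3) (H.h (0 : Fin 2) e) :=
    ConcreteCategory.congr_hom (H.h_succ_comp_δ_castSucc_succ (n := 0) 0) e
  have e4 : SimplicialObject.δ K (0 : Fin 3) (H.h (1 : Fin 2) e) =
      H.h (0 : Fin 1) (SimplicialObject.δ Z (0 : Fin 2) e) :=
    ConcreteCategory.congr_hom (H.h_succ_comp_δ_castSucc_of_lt (n := 0) 0 0 le_rfl) e
  have e5 : SimplicialObject.δ K (2 : Fin 3) (H.h (0 : Fin 2) e) =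
      H.h (0 : Fin 1) (SimplicialObject.δ Z (1 : Fin 2) e) :=
    ConcreteCategory.congr_hom
      (H.h_castSucc_comp_δ_succ_of_lt (n := 0) 1 0 (by decide)) e
  rw [e1, e5] at c0
  rw [e2, e3, e4] at c1
  change u (F.app _ e) + u (G.app _ e) =
    ∑ i : Fin 2, u (H.h (0 : Fin 1) (SimplicialObject.δ Z i e))
  rw [Fin.sum_univ_two]
  have key : ∀ a b c d m : ZMod 2, b + m + d = 0 → c + m + a = 0 → a + b = c + d := by decide
  exact key _ _ _ _ _ c0 c1

theorem prism1 (u : Sx K 2 → ZMod 2) (hu : dl u = 0) :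
    rs F u + rs G u =
      dl (fun x : Sx Z 1 => u (H.h (0 : Fin 2) x) + u (H.h (1 : Fin 2) x)) := by
  funext t
  have c0 : ∑ i : Fin 4, u (SimplicialObject.δ K i (H.h (0 : Fin 3) t)) = 0 :=
    congrFun hu (H.h (0 : Fin 3) t)
  have c1 : ∑ i : Fin 4, u (SimplicialObject.δ K i (H.h (1 : Fin 3) t)) = 0 :=
    congrFun hu (H.h (1 : Fin 3) t)
  have c2 : ∑ i : Fin 4, u (SimplicialObject.δ K i (H.h (2 : Fin 3) t)) = 0 :=
    congrFun hu (H.h (2 : Fin 3) t)
  rw [Fin.sum_univ_four] at c0 c1 c2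
  have a1 : SimplicialObject.δ K (0 : Fin 4) (H.h (0 : Fin 3) t) = G.app _ t :=
    ConcreteCategory.congr_hom (H.h_zero_comp_δ_zero 2) t
  have a2 : SimplicialObject.δ K (3 : Fin 4) (H.h (2 : Fin 3) t) = F.app _ t :=
    ConcreteCategory.congr_hom (H.h_last_comp_δ_last 2) t
  have a3 : SimplicialObject.δ K (1 : Fin 4) (H.h (1 : Fin 3) t) =
      SimplicialObject.δ K (1 : Fin 4) (H.h (0 : Fin 3) t) :=
    ConcreteCategory.congr_hom (H.h_succ_comp_δ_castSucc_succ (n := 1) 0) t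
  have a4 : SimplicialObject.δ K (2 : Fin 4) (H.h (2 : Fin 3) t) =
      SimplicialObject.δ K (2 : Fin 4) (H.h (1 : Fin 3) t) :=
    ConcreteCategory.congr_hom (H.h_succ_comp_δ_castSucc_succ (n := 1) 1) t
  have b1 : SimplicialObject.δ K (0 : Fin 4) (H.h (1 : Fin 3) t) =
      H.h (0 : Fin 2) (SimplicialObject.δ Z (0 : Fin 3) t) :=
    ConcreteCategory.congr_hom (H.h_succ_comp_δ_castSucc_of_lt (n := 1) 0 0 le_rfl) t
  have b2 : SimplicialObject.δ K (0 : Fin 4) (H.h (2 : Fin 3) t) =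
      H.h (1 : Fin 2) (SimplicialObject.δ Z (0 : Fin 3) t) :=
    ConcreteCategory.congr_hom (H.h_succ_comp_δ_castSucc_of_lt (n := 1) 0 1 (by decide)) t
  have b3 : SimplicialObject.δ K (1 : Fin 4) (H.h (2 : Fin 3) t) =
      H.h (1 : Fin 2) (SimplicialObject.δ Z (1 : Fin 3) t) :=
    ConcreteCategory.congr_hom (H.h_succ_comp_δ_castSucc_of_lt (n := 1) 1 1 (by decide)) t
  have d1 : SimplicialObject.δ K (2 : Fin 4) (H.h (0 : Fin 3) t) =
      H.h (0 : Fin 2) (SimplicialObject.δ Z (1 : Fin 3) t) :=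
    ConcreteCategory.congr_hom
      (H.h_castSucc_comp_δ_succ_of_lt (n := 1) 1 0 (by decide)) t
  have d2 : SimplicialObject.δ K (3 : Fin 4) (H.h (0 : Fin 3) t) =
      H.h (0 : Fin 2) (SimplicialObject.δ Z (2 : Fin 3) t) :=
    ConcreteCategory.congr_hom
      (H.h_castSucc_comp_δ_succ_of_lt (n := 1) 2 0 (by decide)) t
  have d3 : SimplicialObject.δ K (3 : Fin 4) (H.h (1 : Fin 3) t) =
      H.h (1 : Fin 2) (SimplicialObject.δ Z (2 : Fin 3) t) :=
    ConcreteCategory.congr_hom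
      (H.h_castSucc_comp_δ_succ_of_lt (n := 1) 2 1 (by decide)) t
  rw [a1, d1, d2] at c0
  rw [a3, b1, d3] at c1
  rw [a2, a4, b2, b3] at c2
  change u (F.app _ t) + u (G.app _ t) =
    ∑ i : Fin 3, (u (H.h (0 : Fin 2) (SimplicialObject.δ Z i t)) +
      u (H.h (1 : Fin 2) (SimplicialObject.δ Z i t)))
  rw [Fin.sum_univ_three]
  have two : (2 : ZMod 2) = 0 := rfl
  linear_combination c0 + c1 + c2 -
    (u (H.h (0 : Fin 2) (SimplicialObject.δ Z (0 : Fin 3) t)) +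
      u (H.h (1 : Fin 2) (SimplicialObject.δ Z (0 : Fin 3) t)) +
      u (H.h (0 : Fin 2) (SimplicialObject.δ Z (1 : Fin 3) t)) +
      u (H.h (1 : Fin 2) (SimplicialObject.δ Z (1 : Fin 3) t)) +
      u (H.h (0 : Fin 2) (SimplicialObject.δ Z (2 : Fin 3) t)) +
      u (H.h (1 : Fin 2) (SimplicialObject.δ Z (2 : Fin 3) t)) +
      u (SimplicialObject.δ K (1 : Fin 4) (H.h (0 : Fin 3) t)) +
      u (SimplicialObject.δ K (2 : Fin 4) (H.h (1 : Fin 3) t))) * two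

end

/-! ### From homotopies to coboundaries -/

theorem cob_of_homotopy (hR : S_REP) {k : ℕ} (hk : k ≤ 1) {X Z : SSet.{0}} (p : X ⟶ KK k)
    {f g : Z ⟶ X} (H : SSet.Homotopy f g) : ∃ β, ev (f ≫ p) + ev (g ≫ p) = dl β := by
  have H2 : SimplicialObject.Homotopy (f ≫ p) (g ≫ p) := H.toSimplicialObjectHomotopy.postcomp p
  have hu : NZ (ev (𝟙 (KK k))) := (hR k (KK k)).1 (𝟙 _)
  have e1 : ∀ q : Z ⟶ KK k, ev q = rs q (ev (𝟙 (KK k))) := fun q => rfl
  have h2 : k = 0 ∨ k = 1 := by omega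
  rcases h2 with rfl | rfl
  · exact ⟨_, by rw [e1, e1]; exact prism0 H2 _ hu.1⟩
  · exact ⟨_, by rw [e1, e1]; exact prism1 H2 _ hu.1⟩

/-! ### From coboundaries to homotopies -/

/-- two copies of a simplicial set -/
def Dbl (Z : SSet.{0}) : SSet.{0} where
  obj m := Z.obj m ⊕ Z.obj m
  map f := ↾ Sum.map (Z.map f) (Z.map f)
  map_id m := by
    ext x
    rcases x with x | x
    · change Sum.inl (Z.map (𝟙 m) x) = Sum.inl x
      simp
    · change Sum.inr (Z.map (𝟙 m) x) = Sum.inr x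
      simp
  map_comp f g := by
    ext x
    rcases x with x | x
    · change Sum.inl (Z.map (f ≫ g) x) = Sum.inl (Z.map g (Z.map f x))
      simp
    · change Sum.inr (Z.map (f ≫ g) x) = Sum.inr (Z.map g (Z.map f x))
      simp

/-- the map from two copies -/
def dsc {Z X : SSet.{0}} (f g : Z ⟶ X) : Dbl Z ⟶ X where
  app m := ↾ Sum.elim (f.app m) (g.app m)
  naturality m m' h := by
    ext x
    rcases x with x | x
    · exact ConcreteCategory.congr_hom (f.naturality h) x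
    · exact ConcreteCategory.congr_hom (g.naturality h) x

theorem dsc_comp {Z X Y : SSet.{0}} (f g : Z ⟶ X) (p : X ⟶ Y) :
    dsc f g ≫ p = dsc (f ≫ p) (g ≫ p) := by
  ext m x
  rcases x with x | x
  · rfl
  · rfl

theorem dsc_inj {Z X : SSet.{0}} {f g f' g' : Z ⟶ X} (h : dsc f g = dsc f' g') :
    f = f' ∧ g = g' := by
  constructor
  · ext m x
    have h1 : (dsc f g).app m (Sum.inl x) = (dsc f' g').app m (Sum.inl x) := by rw [h]
    exact h1
  · ext m x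
    have h1 : (dsc f g).app m (Sum.inr x) = (dsc f' g').app m (Sum.inr x) := by rw [h]
    exact h1

theorem mono_ends (Z : SSet.{0}) : Mono (dsc (SSet.ι₀ (X := Z)) (SSet.ι₁ (X := Z))) := by
  rw [NatTrans.mono_iff_mono_app]
  intro m
  rw [mono_iff_injective]
  induction m using Opposite.rec with
  | op m =>
  induction m using SimplexCategory.rec with
  | _ m =>
  have h01 : ∀ x y : Sx Z m, SSet.ι₀.app _ x ≠ SSet.ι₁.app _ y := by
    intro x y h
    have h1 := congrArg (fun q => q.2 0) h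
    simp at h1
  rintro (x | x) (y | y) h
  · have h1 : SSet.ι₀.app _ x = SSet.ι₀.app _ y := h
    have h2 := congrArg Prod.fst h1
    exact congrArg Sum.inl h2
  · exact absurd h (h01 x y)
  · exact absurd h.symm (h01 y x)
  · have h1 : SSet.ι₁.app _ x = SSet.ι₁.app _ y := h
    have h2 := congrArg Prod.fst h1
    exact congrArg Sum.inr h2

/-- a homotopy from a map -/
noncomputable def mkHtpy {Z X : SSet.{0}} {f g : Z ⟶ X} (h : Z ⊗ Δ[1] ⟶ X)
    (h0 : SSet.ι₀ ≫ h = f) (h1 : SSet.ι₁ ≫ h = g) : SSet.Homotopy f g where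
  h := h
  h₀ := h0
  h₁ := h1
  rel := by
    ext m x
    exact absurd x.1.2 (Set.notMem_empty _)

/-- the cochain of a product with the interval -/
noncomputable def bt {Z : SSet.{0}} {k : ℕ} (β : Sx Z k → ZMod 2) : Sx (Z ⊗ Δ[1]) k → ZMod 2 :=
  fun x => if ∀ j, x.2 j = 1 then β x.1 else 0

theorem rs_ι₀_bt {Z : SSet.{0}} {k : ℕ} (β : Sx Z k → ZMod 2) : rs SSet.ι₀ (bt β) = 0 := by
  funext x
  change (if ∀ j, (SSet.ι₀.app _ x).2 j = 1 then β (SSet.ι₀.app _ x).1 else 0) = 0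
  rw [if_neg]
  intro h
  have h1 := h 0
  simp at h1

theorem rs_ι₁_bt {Z : SSet.{0}} {k : ℕ} (β : Sx Z k → ZMod 2) : rs SSet.ι₁ (bt β) = β := by
  funext x
  change (if ∀ j, (SSet.ι₁.app _ x).2 j = 1 then β (SSet.ι₁.app _ x).1 else 0) = β x
  rw [if_pos]
  · simp
  · intro j
    simp

theorem bt_degen {Z : SSet.{0}} (β : Sx Z 1 → ZMod 2)
    (h : ∀ v : Sx Z 0, β (SimplicialObject.σ Z (0 : Fin 1) v) = 0) (v : Sx (Z ⊗ Δ[1]) 0) :
    bt β (SimplicialObject.σ (Z ⊗ Δ[1]) (0 : Fin 1) v) = 0 := by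
  have h1 : (SimplicialObject.σ (Z ⊗ Δ[1]) (0 : Fin 1) v).1 =
    SimplicialObject.σ Z (0 : Fin 1) v.1 := rfl
  simp only [bt]
  rw [h1, h]
  simp

theorem NZ_dl0 {Z : SSet.{0}} (β : Sx Z 0 → ZMod 2) : NZ (dl β) := by
  refine ⟨dl_dl0 β, fun i s => ?_⟩
  have hi : i = (0 : Fin 1) := Subsingleton.elim (α := Fin 1) _ _
  subst hi
  change ∑ j : Fin 2, β (SimplicialObject.δ Z j (SimplicialObject.σ Z (0 : Fin 1) s)) = 0
  rw [Fin.sum_univ_two]
  have h1 : SimplicialObject.δ Z (0 : Fin 2) (SimplicialObject.σ Z (0 : Fin 1) s) = s :=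
    ds_self Z 0 s
  have h2 : SimplicialObject.δ Z (1 : Fin 2) (SimplicialObject.σ Z (0 : Fin 1) s) = s :=
    ds_succ Z 0 s
  rw [h1, h2, CharTwo.add_self_eq_zero]

theorem NZ_dl1 {Z : SSet.{0}} (β : Sx Z 1 → ZMod 2)
    (h : ∀ v : Sx Z 0, β (SimplicialObject.σ Z (0 : Fin 1) v) = 0) : NZ (dl β) := by
  refine ⟨dl_dl1 β, fun i s => ?_⟩
  change ∑ j : Fin 3, β (SimplicialObject.δ Z j (SimplicialObject.σ Z i s)) = 0
  rw [Fin.sum_univ_three]
  have hi : i = (0 : Fin 2) ∨ i = (1 : Fin 2) := by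
    revert i
    decide
  rcases hi with rfl | rfl
  · have h1 : SimplicialObject.δ Z (0 : Fin 3) (SimplicialObject.σ Z (0 : Fin 2) s) = s :=
      ds_self Z 0 s
    have h2 : SimplicialObject.δ Z (1 : Fin 3) (SimplicialObject.σ Z (0 : Fin 2) s) = s :=
      ds_succ Z 0 s
    have h3 : SimplicialObject.δ Z (2 : Fin 3) (SimplicialObject.σ Z (0 : Fin 2) s) =
        SimplicialObject.σ Z (0 : Fin 1) (SimplicialObject.δ Z (1 : Fin 2) s) :=
      ds_gt Z 1 0 (by decide) s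
    rw [h1, h2, h3, h, add_zero, CharTwo.add_self_eq_zero]
  · have h1 : SimplicialObject.δ Z (0 : Fin 3) (SimplicialObject.σ Z (1 : Fin 2) s) =
        SimplicialObject.σ Z (0 : Fin 1) (SimplicialObject.δ Z (0 : Fin 2) s) :=
      ds_le Z 0 0 le_rfl s
    have h2 : SimplicialObject.δ Z (1 : Fin 3) (SimplicialObject.σ Z (1 : Fin 2) s) = s :=
      ds_self Z 1 s
    have h3 : SimplicialObject.δ Z (2 : Fin 3) (SimplicialObject.σ Z (1 : Fin 2) s) = s :=
      ds_succ Z 1 s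
    rw [h1, h2, h3, h, zero_add, CharTwo.add_self_eq_zero]

/-- a cochain of degree one with normalised coboundary is normalised -/
theorem norm_of_NZ {Z : SSet.{0}} (β : Sx Z 1 → ZMod 2) (h : NZ (dl β)) (v : Sx Z 0) :
    β (SimplicialObject.σ Z (0 : Fin 1) v) = 0 := by
  have h1 : ∑ j : Fin 3, β (SimplicialObject.δ Z j
      (SimplicialObject.σ Z (0 : Fin 2) (SimplicialObject.σ Z (0 : Fin 1) v))) = 0 :=
    h.2 (0 : Fin 2) (SimplicialObject.σ Z (0 : Fin 1) v)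
  rw [Fin.sum_univ_three] at h1
  have a1 : SimplicialObject.δ Z (0 : Fin 3)
      (SimplicialObject.σ Z (0 : Fin 2) (SimplicialObject.σ Z (0 : Fin 1) v)) =
        SimplicialObject.σ Z (0 : Fin 1) v := ds_self Z 0 _
  have a2 : SimplicialObject.δ Z (1 : Fin 3)
      (SimplicialObject.σ Z (0 : Fin 2) (SimplicialObject.σ Z (0 : Fin 1) v)) =
        SimplicialObject.σ Z (0 : Fin 1) v := ds_succ Z 0 _
  have a3 : SimplicialObject.δ Z (2 : Fin 3)
      (SimplicialObject.σ Z (0 : Fin 2) (SimplicialObject.σ Z (0 : Fin 1) v)) =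
        SimplicialObject.σ Z (0 : Fin 1)
          (SimplicialObject.δ Z (1 : Fin 2) (SimplicialObject.σ Z (0 : Fin 1) v)) :=
    ds_gt Z 1 0 (by decide) _
  have a4 : SimplicialObject.δ Z (1 : Fin 2) (SimplicialObject.σ Z (0 : Fin 1) v) = v :=
    ds_succ Z 0 v
  rw [a1, a2, a3, a4, CharTwo.add_self_eq_zero, zero_add] at h1
  exact h1

theorem NZ_bt {Z : SSet.{0}} {k : ℕ} (hk : k ≤ 1) (β : Sx Z k → ZMod 2) (h : NZ (dl β)) :
    NZ (dl (bt β)) := by
  have h2 : k = 0 ∨ k = 1 := by omega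
  rcases h2 with rfl | rfl
  · exact NZ_dl0 _
  · exact NZ_dl1 _ (bt_degen β (norm_of_NZ β h))

theorem dl_add' {Z : SSet.{0}} {k : ℕ} (β γ : Sx Z k → ZMod 2) : dl (β + γ) = dl β + dl γ := by
  funext z
  simp only [dl, Pi.add_apply, Finset.sum_add_distrib]

theorem NZ_add' {Z : SSet.{0}} {k : ℕ} {u v : Sx Z (k + 1) → ZMod 2} (hu : NZ u) (hv : NZ v) :
    NZ (u + v) := by
  refine ⟨?_, fun i s => ?_⟩
  · rw [dl_add', hu.1, hv.1, add_zero]
  · rw [Pi.add_apply, hu.2, hv.2, add_zero]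

theorem homotopy_of_cob (hR : S_REP) {k : ℕ} (hk : k ≤ 1) {X Z : SSet.{0}} (p : X ⟶ KK k)
    (hp : TrivFib p) (f g : Z ⟶ X) (h : ∃ β, ev (f ≫ p) + ev (g ≫ p) = dl β) :
    Nonempty (SSet.Homotopy f g) := by
  obtain ⟨β, hβ⟩ := h
  have hf : NZ (ev (f ≫ p)) := (hR k Z).1 _
  have hg : NZ (ev (g ≫ p)) := (hR k Z).1 _
  have hd : NZ (dl β) := by
    rw [← hβ]
    exact NZ_add' hf hg
  have hc : NZ (rs (CartesianMonoidalCategory.fst Z Δ[1]) (ev (f ≫ p)) + dl (bt β)) :=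
    NZ_add' (hf.rs _) (NZ_bt hk β hd)
  obtain ⟨C, hC⟩ := (hR k (Z ⊗ Δ[1])).2.2 _ hc
  have e0 : SSet.ι₀ ≫ C = f ≫ p := by
    apply (hR k Z).2.1
    change rs SSet.ι₀ (ev C) = _
    rw [hC]
    change rs SSet.ι₀ (rs (CartesianMonoidalCategory.fst Z Δ[1]) (ev (f ≫ p))) +
      rs SSet.ι₀ (dl (bt β)) = ev (f ≫ p)
    rw [← dl_rs, rs_ι₀_bt]
    have h1 : dl (0 : Sx Z k → ZMod 2) = 0 := by
      funext z
      simp only [dl, Pi.zero_apply, Finset.sum_const_zero]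
    rw [h1, add_zero]
    rfl
  have e1 : SSet.ι₁ ≫ C = g ≫ p := by
    apply (hR k Z).2.1
    change rs SSet.ι₁ (ev C) = _
    rw [hC]
    change rs SSet.ι₁ (rs (CartesianMonoidalCategory.fst Z Δ[1]) (ev (f ≫ p))) +
      rs SSet.ι₁ (dl (bt β)) = ev (g ≫ p)
    rw [← dl_rs, rs_ι₁_bt, ← hβ]
    change ev (f ≫ p) + (ev (f ≫ p) + ev (g ≫ p)) = ev (g ≫ p)
    funext z
    simp only [Pi.add_apply]
    rw [← add_assoc, CharTwo.add_self_eq_zero, zero_add]
  have hm := mono_ends Z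
  obtain ⟨l, hl1, _⟩ := lift_mono hp (dsc (SSet.ι₀ (X := Z)) (SSet.ι₁ (X := Z))) (dsc f g) C
    (by rw [dsc_comp, dsc_comp, e0, e1])
  rw [dsc_comp] at hl1
  obtain ⟨h0, h1⟩ := dsc_inj hl1
  exact ⟨mkHtpy l h0 h1⟩

theorem s_TRN (hR : S_REP) : S_TRN := by
  intro k hk X p hp
  refine ⟨fun Z u hu => ?_, fun Z f g => ⟨fun ⟨H⟩ => cob_of_homotopy hR hk p H,
    homotopy_of_cob hR hk p hp f g⟩⟩
  obtain ⟨F, hF⟩ := (hR k Z).2.2 u hu
  obtain ⟨l, _, hl⟩ := lift_mono hp (initial.to Z) (initial.to X) F (by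
    exact initialIsInitial.hom_ext _ _)
  exact ⟨l, by rw [hl, hF]⟩

end Pool.Agent.L7h3.HS
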